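import Pool.Agent.Helper62.Q3.RT3A

/-! Row RT3 of the third sheet QZ (MP_818aa8): the level sets of the short Euler product along the
line, `N` up to `exp (log T / (log log T) ^ 6)` (helper62). -/

set_option autoImplicit false

namespace Pool.Agent.Helper57.QZ

open MeasureTheory Set Filter Topology

theorem rt3_of (h1 : ST_LT) (h2 : ST_VT) (h3 : ST_ST) (h7 : ST_LL) (hLG : ST_LG) (hEU : ST_EU)
    (h5 : ST_DT1) (h6 : ST_DT2) (h8 : ST_SM5) : ST_RT3 := by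
  intro ε hε η hη
  obtain ⟨hη0, hη1⟩ := hη
  obtain ⟨cu, zu, hcu, hU⟩ := h2 ε hε (η / 2)
    ⟨by linarith only [hη0], by linarith only [hη1]⟩
  obtain ⟨e1, he1⟩ : ∃ e1 : ℝ, e1 = min (cu / 2) (η / 8) := ⟨_, rfl⟩
  have he0 : 0 < e1 := by
    rw [he1]
    exact lt_min (by linarith only [hcu]) (by linarith only [hη0])
  have he2 : e1 ≤ cu / 2 := by
    rw [he1]
    exact min_le_left _ _
  have he3 : e1 ≤ η / 8 := by
    rw [he1]
    exact min_le_right _ _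
  clear he1
  have he4 : e1 ≤ 1 := by linarith only [he3, hη1]
  obtain ⟨zl, hL⟩ := h1 ε hε e1 ⟨he0, by linarith only [he3, hη1]⟩
  obtain ⟨Cd0, hD0⟩ := h6 ε hε.1
  obtain ⟨Cl0, hLL0⟩ := h7 ε hε
  obtain ⟨Cl, hCl⟩ : ∃ Cl : ℝ, Cl = max Cl0 0 := ⟨_, rfl⟩
  have hCl0 : 0 ≤ Cl := by
    rw [hCl]
    exact le_max_right _ _
  have hCl1 : Cl0 ≤ Cl := by
    rw [hCl]
    exact le_max_left _ _
  clear hCl
  obtain ⟨cs, zs, hzs3, hcs, hS⟩ := h8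
  obtain ⟨cg, zg, hzg3, hcg, hG⟩ := hLG
  obtain ⟨Ce, hCe0, hE⟩ := hEU ε hε
  obtain ⟨M, hM⟩ : ∃ M : ℝ, M = max (1 / η) (2 * Cd0 / η) := ⟨_, rfl⟩
  have hM1 : 1 / η ≤ M := by
    rw [hM]
    exact le_max_left _ _
  have hM2 : 2 * Cd0 / η ≤ M := by
    rw [hM]
    exact le_max_right _ _
  clear hM
  obtain ⟨S, hS1, hS2, hSu, hSl, hSs, hSg, hS16, hS8, hSM⟩ : ∃ S : ℝ, 1 ≤ S ∧ 2 ≤ S ∧ zu ≤ S ∧
      zl ≤ S ∧ zs ≤ S ∧ zg ≤ S ∧ 16 / η ≤ S ∧ 8 / cu ≤ S ∧ Real.exp (M / cs) ≤ S := by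
    have q1 := abs_nonneg zu
    have q2 := abs_nonneg zl
    have q3 := abs_nonneg zs
    have q3' := abs_nonneg zg
    have q4 : 0 < 16 / η := by positivity
    have q5 : 0 < 8 / cu := by positivity
    have q6 := Real.exp_pos (M / cs)
    have q7 := le_abs_self zu
    have q8 := le_abs_self zl
    have q9 := le_abs_self zs
    have q10 := le_abs_self zg
    refine ⟨2 + |zu| + |zl| + |zs| + |zg| + 16 / η + 8 / cu + Real.exp (M / cs), ?_, ?_, ?_, ?_,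
      ?_, ?_, ?_, ?_, ?_⟩ <;>
    linarith only [q1, q2, q3, q3', q4, q5, q6, q7, q8, q9, q10]
  have hX0 : 0 ≤ Cl * S ^ 2 := mul_nonneg hCl0 (sq_nonneg _)
  refine ⟨4 * Real.exp (Cl * S ^ 2 + S + 1), ?_, fun A hA => ?_⟩
  · have := Real.add_one_le_exp (Cl * S ^ 2 + S + 1)
    linarith only [this, hX0, hS1]
  obtain ⟨U₀, hU₀4, hpar⟩ := SRT3.par A e1 Ce cg hA he0 he4 hCe0 hcg
  refine ⟨Real.exp U₀, ?_, fun T hT N hN hNT σ hσ => ?_⟩
  · have := Real.add_one_le_exp U₀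
    linarith only [this, hU₀4]
  have hTpos : 0 < T := lt_of_lt_of_le (Real.exp_pos _) hT
  obtain ⟨U, hUd⟩ : ∃ U : ℝ, U = Real.log T := ⟨_, rfl⟩
  have hUU : U₀ ≤ U := by
    rw [hUd, Real.le_log_iff_exp_le hTpos]
    exact hT
  have hTU : Real.exp U = T := by rw [hUd, Real.exp_log hTpos]
  obtain ⟨hV1, hVU, hp1, hp2, hp3, hp4, hp5, hp6⟩ := hpar U hUU
  clear hpar
  have hU1 : 1 ≤ U := by linarith only [hUU, hU₀4]
  have hU0 : 0 < U := by linarith only [hU1]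
  have hzA : zA A T = ⌊U ^ A⌋₊ := by rw [zA, hUd]
  rw [hzA]
  obtain ⟨y, hyd⟩ : ∃ y : ℕ, y = ⌊U ^ A⌋₊ := ⟨_, rfl⟩
  rw [← hyd] at hp2 hp3 hp4 ⊢
  obtain ⟨k, hkd⟩ : ∃ k : ℕ, k = ⌊U / Real.log U ^ 2⌋₊ := ⟨_, rfl⟩
  rw [← hkd] at hp5 hp6
  obtain ⟨V, hV⟩ : ∃ V : ℝ, V = U / Real.log U ^ 6 := ⟨_, rfl⟩
  rw [← hV] at hV1 hVU hp2 hp3 hp5
  rw [← hUd, ← hV] at hNT
  have hylog : Real.log y ≤ A * Real.log U := by
    have g1 : (y : ℝ) ≤ U ^ A := by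
      rw [hyd]
      exact Nat.floor_le (Real.rpow_nonneg hU0.le _)
    have g2 := Real.log_le_log (by linarith only [hp4]) g1
    rwa [Real.log_rpow hU0] at g2
  have hNpos : 0 < N := lt_of_lt_of_le (by positivity) hN
  obtain ⟨L, hLd⟩ : ∃ L : ℝ, L = Real.log (N / 4) := ⟨_, rfl⟩
  have hLbig : Cl * S ^ 2 + S + 1 ≤ L := by
    rw [hLd, Real.le_log_iff_exp_le (by positivity)]
    linarith only [hN]
  have hexpL : Real.exp (-L) = 4 / N := by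
    rw [Real.exp_neg, hLd, Real.exp_log (by positivity), inv_div]
  have hLV : L ≤ V := by
    rw [hLd]
    have g1 : N / 4 ≤ Real.exp V := by linarith only [hNT, hNpos]
    have g2 := Real.log_le_log (by positivity) g1
    rwa [Real.log_exp] at g2
  have hσ0 : 1 / 2 ≤ σ := by linarith only [hσ.1, hε.1]
  obtain ⟨hc, hl0, hl⟩ := hLL0 y σ hσ
  obtain ⟨s, hsS, hsle, hsL⟩ := SRT.level (fun s => Ly y σ s) e1 L Cl S he0 he4 hc hl0
    (fun s hs => ⟨(hl s hs).1, (hl s hs).2.1.trans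
      (mul_le_mul_of_nonneg_right hCl1 (sq_nonneg _))⟩) hCl0 hS1 hLbig
  have hs1 : 1 ≤ s := hS1.trans hsS
  have hs0 : 0 ≤ s := by linarith only [hs1]
  obtain ⟨z, hz⟩ : ∃ z : ℝ, z = s ^ σ⁻¹ := ⟨_, rfl⟩
  obtain ⟨hzσ, hz1, hz2⟩ := SRT.zz s σ hs1 hσ0 hσ.2
  rw [← hz] at hzσ hz1 hz2
  have hsV : s ≤ V / e1 := hsle.trans (div_le_div_of_nonneg_right hLV he0.le)
  have hzV : z ≤ (V / e1) ^ 2 := hz2.trans (pow_le_pow_left₀ hs0 hsV 2)
  have hzy : z ≤ (y : ℝ) := hzV.trans hp2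
  have hsy : s ≤ (y : ℝ) := hsV.trans hp3
  have hz0 : 0 < z := by linarith only [hs1, hz1]
  have hlogz : Real.log z ≤ 2 * Real.log (U / e1) := by
    have g1 := Real.log_le_log hz0 hzV
    rw [Real.log_pow] at g1
    have g2 : Real.log (V / e1) ≤ Real.log (U / e1) :=
      Real.log_le_log (by positivity) (div_le_div_of_nonneg_right hVU he0.le)
    push_cast at g1
    linarith only [g1, g2]
  obtain ⟨hBM, hLO, hUS, hUV⟩ := SRT.bounds ε η e1 cu zu zl zs zg cs cg Ce M hη0 hη1 he0 he4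
    hε hcs hcg hCe0 h3 hU hL hS hG hE y k σ s z T U V (2 * Real.log (U / e1)) (A * Real.log U) L
    hσ hzσ hs1 hz1 hzy hsy ((hS2.trans hsS).trans hz1) ((hSu.trans hsS).trans hz1)
    ((hSl.trans hsS).trans hz1) ((hSs.trans hsS).trans hz1) ((hSg.trans hsS).trans hz1)
    ((hSM.trans hsS).trans hz1) hV1 hp1 hlogz hp4 hylog
    (mul_nonneg (by linarith only [hA]) (Real.log_nonneg hU1)) hLV hsL hTU hp5 hp6
  have hBd : Cd0 ≤ η / 2 * omy y σ s := by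
    have g1 : 2 * Cd0 / η ≤ omy y σ s := hM2.trans hBM
    rw [div_le_iff₀ hη0] at g1
    linarith only [g1]
  exact SRT.four h5 η e1 cu Cd0 L N T s (muy y σ s) (omy y σ s) y σ hη0 hη1 hcu he0 he2 he3 hσ0
    (fun φ => hD0 y σ φ hσ.1) hs0 (hS16.trans hsS) (hS8.trans hsS) hTpos hNpos hexpL hsL
    (hl s hs0).2.2 (hM1.trans hBM) hBd hLO hUS hUV

end Pool.Agent.Helper57.QZ
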