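import Pool.Agent.Helper62.Q2.RT
import Pool.Agent.Helper57.QZ.Stmts3

/-! Row RT3 of the third sheet QZ (MP_818aa8), the parameters (helper62). -/

set_option autoImplicit false

namespace Pool.Agent.Helper57.QZ

open MeasureTheory Set Filter Topology

theorem SRT3.large (W e : ℝ) : ∃ U₀ : ℝ, 4 ≤ U₀ ∧ ∀ U : ℝ, U₀ ≤ U →
    W ≤ Real.log U ∧ Real.log U ^ 8 ≤ U ∧ e ≤ U := by
  have h1 : ∀ᶠ U : ℝ in atTop, W ≤ Real.log U := Real.tendsto_log_atTop.eventually_ge_atTop W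
  have h2 : ∀ᶠ U : ℝ in atTop, Real.log U ^ 8 ≤ U := by
    have h := (Real.isLittleO_pow_log_id_atTop (n := 8)).def (show (0 : ℝ) < 1 by norm_num)
    filter_upwards [h, eventually_ge_atTop 0] with U hU hU0
    simp only [id] at hU
    rw [Real.norm_eq_abs, Real.norm_of_nonneg hU0, one_mul] at hU
    exact (le_abs_self _).trans hU
  obtain ⟨N, hN⟩ := eventually_atTop.1 (h1.and (h2.and (eventually_ge_atTop e)))
  refine ⟨max 4 N, le_max_left _ _, fun U hU => ?_⟩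
  exact hN U ((le_max_right _ _).trans hU)

/-- the parameters -/
theorem SRT3.par (A e1 C c : ℝ) (hA : 3 ≤ A) (he : 0 < e1) (he1 : e1 ≤ 1) (hC : 0 < C)
    (hc : 0 < c) : ∃ U₀ : ℝ, 4 ≤ U₀ ∧ ∀ U : ℝ, U₀ ≤ U →
    1 ≤ U / Real.log U ^ 6 ∧ U / Real.log U ^ 6 ≤ U ∧
    1 ≤ 2 * Real.log (U / e1) ∧
    (U / Real.log U ^ 6 / e1) ^ 2 ≤ (⌊U ^ A⌋₊ : ℝ) ∧
    U / Real.log U ^ 6 / e1 ≤ (⌊U ^ A⌋₊ : ℝ) ∧
    (1 : ℝ) ≤ (⌊U ^ A⌋₊ : ℝ) ∧
    8 * (C + 1) * (U / Real.log U ^ 6 / c * (2 * Real.log (U / e1)) ^ 3) +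
      Real.log (400 / e1 ^ 2) + 2 * (A * Real.log U) + 1 ≤ (⌊U / Real.log U ^ 2⌋₊ : ℝ) ∧
    Real.log (1000 / e1 ^ 2) +
      2 * (⌊U / Real.log U ^ 2⌋₊ : ℝ) * (Real.log 2 + 2 * (A * Real.log U)) +
      (2 * (⌊U / Real.log U ^ 2⌋₊ : ℝ) + 4) * (A * Real.log U) ≤ U := by
  obtain ⟨Ka, hKa⟩ : ∃ K : ℝ, K = 8 * (C + 1) / c * 64 := ⟨_, rfl⟩
  obtain ⟨Kb, hKb⟩ : ∃ K : ℝ, K = |Real.log (400 / e1 ^ 2)| + 2 * A + 2 := ⟨_, rfl⟩
  obtain ⟨Kc, hKc⟩ : ∃ K : ℝ, K = |Real.log (1000 / e1 ^ 2)| + 2 + 6 * A + 4 * A := ⟨_, rfl⟩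
  have habs1 := abs_nonneg (Real.log (400 / e1 ^ 2))
  have habs2 := abs_nonneg (Real.log (1000 / e1 ^ 2))
  have hKa0 : 0 < Ka := by rw [hKa]; positivity
  have hA0 : 0 < A := by linarith only [hA]
  have hKb0 : 0 < Kb := by linarith only [hKb, habs1, hA0]
  have hKc0 : 0 < Kc := by linarith only [hKc, habs2, hA0]
  obtain ⟨W, hW⟩ : ∃ W : ℝ, W = Ka + Kb + Kc + 1 := ⟨_, rfl⟩
  obtain ⟨U₀, hU₀, hlarge⟩ := SRT3.large W (1 / e1 ^ 2 + 1)
  refine ⟨U₀, hU₀, fun U hU => ?_⟩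
  obtain ⟨hWq, hq8, heU⟩ := hlarge U hU
  have hU4 : 4 ≤ U := hU₀.trans hU
  have hU0 : 0 < U := by linarith only [hU4]
  have hU1 : 1 ≤ U := by linarith only [hU4]
  obtain ⟨q, hq⟩ : ∃ q : ℝ, q = Real.log U := ⟨_, rfl⟩
  rw [← hq] at hWq hq8 ⊢
  have hq1 : 1 ≤ q := by linarith only [hW, hKa0, hKb0, hKc0, hWq]
  have hq0 : 0 < q := by linarith only [hq1]
  have hee : 0 < 1 / e1 ^ 2 := by positivity
  have hie : 1 ≤ 1 / e1 := by
    rw [le_div_iff₀ he]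
    linarith only [he1]
  have hieU : 1 / e1 ≤ U := by
    have h1 : 1 / e1 ≤ 1 / e1 ^ 2 := by
      have : 1 / e1 ^ 2 = (1 / e1) * (1 / e1) := by field_simp
      rw [this]
      exact le_mul_of_one_le_left (by linarith only [hie]) hie
    linarith only [h1, heU]
  have hUe : U / e1 = U * (1 / e1) := by ring
  have hUe1 : U ≤ U / e1 := by
    rw [hUe]
    exact le_mul_of_one_le_right hU0.le hie
  have hl1 : Real.log (U / e1) ≤ 2 * q := by
    have h1 : U / e1 ≤ U ^ 2 := by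
      rw [hUe, pow_two]
      exact mul_le_mul_of_nonneg_left hieU hU0.le
    have h2 := Real.log_le_log (by positivity) h1
    rw [Real.log_pow, ← hq] at h2
    exact_mod_cast h2
  have hl0 : Real.log 4 ≤ Real.log (U / e1) :=
    Real.log_le_log (by norm_num) (by linarith only [hU4, hUe1])
  have hlog4 : 1 ≤ Real.log 4 := by
    rw [Real.le_log_iff_exp_le (by norm_num)]
    have := Real.exp_one_lt_d9
    linarith only [this]
  obtain ⟨l, hl⟩ : ∃ l : ℝ, l = 2 * Real.log (U / e1) := ⟨_, rfl⟩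
  have hlw : l ≤ 4 * q := by linarith only [hl, hl1]
  have hl2 : 1 ≤ l := by linarith only [hl, hl0, hlog4]
  obtain ⟨V, hV⟩ : ∃ V : ℝ, V = U / q ^ 6 := ⟨_, rfl⟩
  obtain ⟨R, hR⟩ : ∃ R : ℝ, R = U / q ^ 3 := ⟨_, rfl⟩
  obtain ⟨G, hG⟩ : ∃ G : ℝ, G = U / q ^ 2 := ⟨_, rfl⟩
  have hVR : V * q ^ 3 = R := by
    rw [hV, hR]
    field_simp
  have hRG : R * q = G := by
    rw [hR, hG]
    field_simp
  have hGU : G * q ^ 2 = U := by
    rw [hG]
    field_simp
  have hV1 : 1 ≤ V := by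
    rw [hV, le_div_iff₀ (by positivity), one_mul]
    exact (pow_le_pow_right₀ hq1 (by norm_num)).trans hq8
  have hVU : V ≤ U := by
    rw [hV]
    exact div_le_self hU0.le (one_le_pow₀ hq1)
  have hRq : q ≤ R := by
    rw [hR, le_div_iff₀ (by positivity)]
    calc q * q ^ 3 = q ^ 4 := by ring
      _ ≤ q ^ 8 := pow_le_pow_right₀ hq1 (by norm_num)
      _ ≤ U := hq8
  have hR1 : 1 ≤ R := hq1.trans hRq
  have hG1 : 1 ≤ G := by
    rw [← hRG]
    exact one_le_mul_of_one_le_of_one_le hR1 hq1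
  have hG0 : 0 ≤ G := by linarith only [hG1]
  obtain ⟨k, hk⟩ : ∃ k : ℕ, k = ⌊G⌋₊ := ⟨_, rfl⟩
  have hkle : (k : ℝ) ≤ G := by
    rw [hk]
    exact Nat.floor_le hG0
  have hkge : G - 1 ≤ (k : ℝ) := by
    rw [hk]
    exact (Nat.sub_one_lt_floor _).le
  have hY : U ^ 3 - 1 ≤ (⌊U ^ A⌋₊ : ℝ) := by
    have h1 : U ^ 3 ≤ U ^ A := by
      calc U ^ 3 = U ^ (3 : ℝ) := by norm_num
        _ ≤ U ^ A := Real.rpow_le_rpow_of_exponent_le hU1 hA
    have h2 := (Nat.sub_one_lt_floor (U ^ A)).le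
    linarith only [h1, h2]
  have hVe1 : 1 ≤ V / e1 := by
    rw [le_div_iff₀ he]
    linarith only [he1, hV1]
  have hc1 : (V / e1) ^ 2 ≤ (⌊U ^ A⌋₊ : ℝ) := by
    have h1 : (V / e1) ^ 2 ≤ (U / e1) ^ 2 := by
      apply pow_le_pow_left₀ (by linarith only [hVe1])
      exact div_le_div_of_nonneg_right hVU he.le
    have h2 : (U / e1) ^ 2 = U ^ 2 * (1 / e1 ^ 2) := by field_simp
    have h3 : U ^ 2 * (1 / e1 ^ 2) + U ^ 2 ≤ U ^ 3 := by
      calc U ^ 2 * (1 / e1 ^ 2) + U ^ 2 = U ^ 2 * (1 / e1 ^ 2 + 1) := by ring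
        _ ≤ U ^ 2 * U := mul_le_mul_of_nonneg_left heU (sq_nonneg U)
        _ = U ^ 3 := by ring
    have h4 : 1 ≤ U ^ 2 := one_le_pow₀ hU1
    linarith only [h1, h2, h3, h4, hY]
  have hc2 : V / e1 ≤ (V / e1) ^ 2 := le_self_pow₀ hVe1 two_ne_zero
  have hla : Real.log (400 / e1 ^ 2) ≤ |Real.log (400 / e1 ^ 2)| := le_abs_self _
  have hlb : Real.log (1000 / e1 ^ 2) ≤ |Real.log (1000 / e1 ^ 2)| := le_abs_self _
  rw [← hV, ← hG, ← hl, ← hk]
  refine ⟨hV1, hVU, hl2, hc1, hc2.trans hc1, hVe1.trans (hc2.trans hc1), ?_, ?_⟩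
  · -- the lower bound for `k`
    have h1 : 8 * (C + 1) * (V / c * l ^ 3) ≤ Ka * R := by
      have h2 : l ^ 3 ≤ (4 * q) ^ 3 := pow_le_pow_left₀ (by linarith only [hl2]) hlw 3
      calc 8 * (C + 1) * (V / c * l ^ 3) = 8 * (C + 1) / c * V * l ^ 3 := by ring
        _ ≤ 8 * (C + 1) / c * V * (4 * q) ^ 3 := by
            apply mul_le_mul_of_nonneg_left h2
            have : 0 ≤ V := by linarith only [hV1]
            positivity
        _ = 8 * (C + 1) / c * 64 * (V * q ^ 3) := by ring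
        _ = Ka * R := by rw [← hKa, hVR]
    have h3 : Real.log (400 / e1 ^ 2) + 2 * (A * q) + 2 ≤ Kb * R := by
      have h5 : A * q ≤ A * R := mul_le_mul_of_nonneg_left hRq hA0.le
      have h7 : |Real.log (400 / e1 ^ 2)| * 1 ≤ |Real.log (400 / e1 ^ 2)| * R :=
        mul_le_mul_of_nonneg_left hR1 habs1
      have h10 : (|Real.log (400 / e1 ^ 2)| + 2 * A + 2) * R =
          |Real.log (400 / e1 ^ 2)| * R + 2 * (A * R) + 2 * R := by ring
      rw [hKb, h10]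
      linarith only [h5, h7, hla, hR1]
    have h8 : (Ka + Kb) * R ≤ G := by
      have h9 : Ka + Kb ≤ q := by linarith only [hW, hWq, hKc0]
      calc (Ka + Kb) * R ≤ q * R := by
            apply mul_le_mul_of_nonneg_right h9
            linarith only [hR1]
        _ = G := by rw [← hRG]; ring
    have h11 : (Ka + Kb) * R = Ka * R + Kb * R := by ring
    linarith only [h1, h3, h8, h11, hkge]
  · have hk0 : (0 : ℝ) ≤ k := Nat.cast_nonneg k
    have hlog2 : Real.log 2 ≤ 1 := by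
      have := Real.log_two_lt_d9
      linarith only [this]
    have hAq : 0 ≤ A * q := mul_nonneg hA0.le hq0.le
    have h1 : 2 * (k : ℝ) * (Real.log 2 + 2 * (A * q)) ≤ 2 * G * (1 + 2 * (A * q)) := by
      have h12 : 0 ≤ 1 + 2 * (A * q) := by linarith only [hAq]
      calc 2 * (k : ℝ) * (Real.log 2 + 2 * (A * q)) ≤ 2 * (k : ℝ) * (1 + 2 * (A * q)) := by
            apply mul_le_mul_of_nonneg_left _ (by linarith only [hk0])
            linarith only [hlog2]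
        _ ≤ 2 * G * (1 + 2 * (A * q)) := by
            apply mul_le_mul_of_nonneg_right _ h12
            linarith only [hkle]
    have h2 : (2 * (k : ℝ) + 4) * (A * q) ≤ (2 * G + 4) * (A * q) := by
      apply mul_le_mul_of_nonneg_right _ hAq
      linarith only [hkle]
    have hGG : G ≤ G * q := le_mul_of_one_le_right hG0 hq1
    have hwG : q ≤ G * q := le_mul_of_one_le_left hq0.le hG1
    have hGw : 1 ≤ G * q := hG1.trans hGG
    have h3 : Real.log (1000 / e1 ^ 2) + 2 * G * (1 + 2 * (A * q)) + (2 * G + 4) * (A * q) ≤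
        Kc * (G * q) := by
      have h7 : |Real.log (1000 / e1 ^ 2)| * 1 ≤ |Real.log (1000 / e1 ^ 2)| * (G * q) :=
        mul_le_mul_of_nonneg_left hGw habs2
      have h8 : A * q ≤ A * (G * q) := mul_le_mul_of_nonneg_left hwG hA0.le
      have h10 : (|Real.log (1000 / e1 ^ 2)| + 2 + 6 * A + 4 * A) * (G * q) =
          |Real.log (1000 / e1 ^ 2)| * (G * q) + 2 * (G * q) + 6 * (A * (G * q)) +
            4 * (A * (G * q)) := by ring
      have h11 : 2 * G * (1 + 2 * (A * q)) + (2 * G + 4) * (A * q) =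
          2 * G + 6 * (A * (G * q)) + 4 * (A * q) := by ring
      rw [hKc, h10, add_assoc, h11]
      linarith only [h7, h8, hGG, hlb]
    have h4 : Kc * (G * q) ≤ U := by
      have h9 : Kc ≤ q := by linarith only [hW, hWq, hKa0, hKb0]
      calc Kc * (G * q) ≤ q * (G * q) := by
            apply mul_le_mul_of_nonneg_right h9
            positivity
        _ = G * q ^ 2 := by ring
        _ = U := hGU
    linarith only [h1, h2, h3, h4]

end Pool.Agent.Helper57.QZ
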